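import Mathlib

set_option autoImplicit false

namespace Pool.Agent.Helper983.SN

open Matrix
open scoped ComplexOrder

/-- Schatten `p`-norm of a complex matrix: the `ℓ^p` norm of the singular values (the square roots
of the eigenvalues of `Aᴴ A`). -/
noncomputable def schatten (p : ℝ) {m n : Type*} [Fintype m] [Fintype n] [DecidableEq n]
    (A : Matrix m n ℂ) : ℝ :=
  (∑ j, ((Matrix.isHermitian_conjTranspose_mul_self A).eigenvalues j) ^ (p / 2)) ^ (1 / p)

/-- Trace norm: the sum of the singular values. -/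
noncomputable def tn {m n : Type*} [Fintype m] [Fintype n] [DecidableEq n]
    (A : Matrix m n ℂ) : ℝ :=
  ∑ j, Real.sqrt ((Matrix.isHermitian_conjTranspose_mul_self A).eigenvalues j)

/-- Upper block `A_k` of the `k`-th block column of a `2 × K` block matrix. -/
def topBlock {K : Type*} {m₁ m₂ : Type*} {n : K → Type*}
    (T : Matrix (m₁ ⊕ m₂) (Σ k, n k) ℂ) (k : K) : Matrix m₁ (n k) ℂ :=
  Matrix.of fun i j => T (Sum.inl i) ⟨k, j⟩

/-- Lower block `B_k` of the `k`-th block column of a `2 × K` block matrix. -/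
def botBlock {K : Type*} {m₁ m₂ : Type*} {n : K → Type*}
    (T : Matrix (m₁ ⊕ m₂) (Σ k, n k) ℂ) (k : K) : Matrix m₂ (n k) ℂ :=
  Matrix.of fun i j => T (Sum.inr i) ⟨k, j⟩

/-- `X` is a contraction. -/
def Contr {m n : Type*} [Fintype m] [Fintype n] [DecidableEq m] (X : Matrix m n ℂ) : Prop :=
  (1 - X * Xᴴ).PosSemidef

end Pool.Agent.Helper983.SN
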