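import Pool.Agent.Helper983.SN.Defs

set_option autoImplicit false

namespace Pool.Agent.Helper983.SN

open Matrix
open scoped ComplexOrder



theorem j25560_blk {m₁ m₂ : Type} [Fintype m₁] [Fintype m₂] [DecidableEq m₁] [DecidableEq m₂]
    (A : Matrix m₁ m₁ ℂ) (D : Matrix m₂ m₂ ℂ) (hA : A.PosSemidef) (hD : D.PosSemidef) :
    (fromBlocks A 0 0 D).PosSemidef := by
  have h1 : (fromRows (1 : Matrix m₁ m₁ ℂ) (0 : Matrix m₂ m₁ ℂ)) * A *
      (fromRows (1 : Matrix m₁ m₁ ℂ) (0 : Matrix m₂ m₁ ℂ))ᴴ = fromBlocks A 0 0 0 := by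
    rw [fromRows_mul, conjTranspose_fromRows_eq_fromCols_conjTranspose, fromRows_mul_fromCols]
    simp
  have h2 : (fromRows (0 : Matrix m₁ m₂ ℂ) (1 : Matrix m₂ m₂ ℂ)) * D *
      (fromRows (0 : Matrix m₁ m₂ ℂ) (1 : Matrix m₂ m₂ ℂ))ᴴ = fromBlocks 0 0 0 D := by
    rw [fromRows_mul, conjTranspose_fromRows_eq_fromCols_conjTranspose, fromRows_mul_fromCols]
    simp
  have h3 : fromBlocks A 0 0 D = fromBlocks A 0 0 0 + fromBlocks 0 0 0 D := by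
    rw [fromBlocks_add]; simp
  rw [h3, ← h1, ← h2]
  exact (hA.mul_mul_conjTranspose_same _).add (hD.mul_mul_conjTranspose_same _)

theorem j25560_entry {K m m' : Type} {c : K → Type} [Fintype K] [∀ k, Fintype (c k)]
    (a b : K → ℝ) (P : ∀ k, Matrix m (c k) ℂ) (Q : ∀ k, Matrix m' (c k) ℂ) (i : m) (j : m') :
    ∑ x : (Σ k, c k), ((a x.1 : ℂ) * P x.1 i x.2) * star ((b x.1 : ℂ) * Q x.1 j x.2) =
      ∑ k, ((a k * b k : ℝ) : ℂ) * (P k * (Q k)ᴴ) i j := by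
  rw [Fintype.sum_sigma]
  refine Finset.sum_congr rfl fun k _ => ?_
  rw [Matrix.mul_apply, Finset.mul_sum]
  refine Finset.sum_congr rfl fun q _ => ?_
  rw [conjTranspose_apply, star_mul']
  have h : star ((b k : ℝ) : ℂ) = ((b k : ℝ) : ℂ) := Complex.conj_ofReal _
  rw [h]
  push_cast
  ring

theorem j25560_diag {K m : Type} {c : K → Type} [Fintype K] [Fintype m] [DecidableEq m]
    [∀ k, Fintype (c k)] (P : ∀ k, Matrix m (c k) ℂ) (d : K → ℝ) (h1 : ∑ k, d k ^ 2 = 1)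
    (i j : m) : (1 : Matrix m m ℂ) i j - ∑ k, ((d k * d k : ℝ) : ℂ) * (P k * (P k)ᴴ) i j =
      (∑ k, ((d k ^ 2 : ℝ) : ℂ) • (1 - P k * (P k)ᴴ) : Matrix m m ℂ) i j := by
  rw [Matrix.sum_apply]
  have h2 : ∀ k, (((d k ^ 2 : ℝ) : ℂ) • (1 - P k * (P k)ᴴ) : Matrix m m ℂ) i j =
      ((d k ^ 2 : ℝ) : ℂ) * (1 : Matrix m m ℂ) i j - ((d k * d k : ℝ) : ℂ) * (P k * (P k)ᴴ) i j := by
    intro k
    rw [Matrix.smul_apply, Matrix.sub_apply, smul_eq_mul, mul_sub, sq]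
  simp only [h2]
  rw [Finset.sum_sub_distrib, ← Finset.sum_mul]
  have h3 : ∑ k, ((d k ^ 2 : ℝ) : ℂ) = 1 := by
    rw [← Complex.ofReal_sum, h1, Complex.ofReal_one]
  rw [h3, one_mul]

theorem j25560_psd {K m : Type} {c : K → Type} [Fintype K] [Fintype m] [DecidableEq m]
    [∀ k, Fintype (c k)] (P : ∀ k, Matrix m (c k) ℂ) (d : K → ℝ) (hP : ∀ k, Contr (P k)) :
    (∑ k, ((d k ^ 2 : ℝ) : ℂ) • (1 - P k * (P k)ᴴ) : Matrix m m ℂ).PosSemidef := by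
  apply posSemidef_sum
  intro k _
  apply PosSemidef.smul (hP k)
  exact_mod_cast sq_nonneg (d k)

/-- The assembled `2 × K` block matrix is a contraction. -/
theorem assemble {K m₁ m₂ : Type} {c : K → Type} [Fintype K] [Fintype m₁] [Fintype m₂]
    [∀ k, Fintype (c k)] [DecidableEq m₁] [DecidableEq m₂]
    (Y : ∀ k, Matrix m₁ (c k) ℂ) (Z : ∀ k, Matrix m₂ (c k) ℂ)
    (hY : ∀ k, Contr (Y k)) (hZ : ∀ k, Contr (Z k))
    (d₁ d₂ : K → ℝ) (h1 : ∑ k, d₁ k ^ 2 = 1) (h2 : ∑ k, d₂ k ^ 2 = 1)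
    (h0 : ∑ k, ((d₁ k * d₂ k : ℝ) : ℂ) • (Y k * (Z k)ᴴ) = 0) :
    Contr (Matrix.of fun (r : m₁ ⊕ m₂) (q : Σ k, c k) =>
      Sum.elim (fun i => (d₁ q.1 : ℂ) * Y q.1 i q.2) (fun i => (d₂ q.1 : ℂ) * Z q.1 i q.2) r) := by
  unfold Contr
  obtain ⟨X, hX⟩ : ∃ X : Matrix (m₁ ⊕ m₂) (Σ k, c k) ℂ, X = Matrix.of fun (r : m₁ ⊕ m₂)
      (q : Σ k, c k) => Sum.elim (fun i => (d₁ q.1 : ℂ) * Y q.1 i q.2)
        (fun i => (d₂ q.1 : ℂ) * Z q.1 i q.2) r := ⟨_, rfl⟩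
  rw [← hX]
  have key : 1 - X * Xᴴ = fromBlocks (∑ k, ((d₁ k ^ 2 : ℝ) : ℂ) • (1 - Y k * (Y k)ᴴ)) 0 0
      (∑ k, ((d₂ k ^ 2 : ℝ) : ℂ) • (1 - Z k * (Z k)ᴴ)) := by
    ext i j
    rw [Matrix.sub_apply, Matrix.mul_apply]
    rcases i with i | i <;> rcases j with j | j
    · rw [fromBlocks_apply₁₁, ← j25560_diag Y d₁ h1 i j, ← j25560_entry]
      congr 1
      · rw [Matrix.one_apply, Matrix.one_apply]; simp
      · rw [hX]; rfl
    · rw [fromBlocks_apply₁₂]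
      have e1 : ∑ q : (Σ k, c k), X (Sum.inl i) q * Xᴴ q (Sum.inr j) =
          ∑ k, ((d₁ k * d₂ k : ℝ) : ℂ) * (Y k * (Z k)ᴴ) i j := by
        rw [← j25560_entry, hX]; rfl
      have e2 : ∑ k, ((d₁ k * d₂ k : ℝ) : ℂ) * (Y k * (Z k)ᴴ) i j = 0 := by
        have e3 := congrFun (congrFun h0 i) j
        rw [Matrix.sum_apply] at e3
        exact e3
      rw [e1, e2, Matrix.one_apply]
      simp
    · rw [fromBlocks_apply₂₁]
      have e1 : ∑ q : (Σ k, c k), X (Sum.inr i) q * Xᴴ q (Sum.inl j) =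
          star (∑ k, ((d₁ k * d₂ k : ℝ) : ℂ) * (Y k * (Z k)ᴴ) j i) := by
        rw [← j25560_entry, star_sum, hX]
        refine Finset.sum_congr rfl fun q _ => ?_
        rw [star_mul', star_star, mul_comm]
        rfl
      have e2 : ∑ k, ((d₁ k * d₂ k : ℝ) : ℂ) * (Y k * (Z k)ᴴ) j i = 0 := by
        have e3 := congrFun (congrFun h0 j) i
        rw [Matrix.sum_apply] at e3
        exact e3
      rw [e1, e2, Matrix.one_apply]
      simp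
    · rw [fromBlocks_apply₂₂, ← j25560_diag Z d₂ h2 i j, ← j25560_entry]
      congr 1
      · rw [Matrix.one_apply, Matrix.one_apply]; simp
      · rw [hX]; rfl
  rw [key]
  exact j25560_blk _ _ (j25560_psd Y d₁ hY) (j25560_psd Z d₂ hZ)

end Pool.Agent.Helper983.SN
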