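import Pool.Agent.Helper983.SN.Defs

set_option autoImplicit false

namespace Pool.Agent.Helper983.SN

open Matrix
open scoped ComplexOrder



theorem aux_nsq {n : Type*} [Fintype n] (v : n → ℂ) :
    ((‖WithLp.toLp 2 v‖ ^ 2 : ℝ) : ℂ) = star v ⬝ᵥ v := by
  rw [EuclideanSpace.norm_sq_eq]
  simp only [dotProduct, Pi.star_apply, Complex.ofReal_sum]
  apply Finset.sum_congr rfl
  intro i _
  have := Complex.conj_mul' (v i)
  push_cast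
  rw [← this]
  rfl

theorem aux_star_mulVec {m n : Type*} [Fintype m] [Fintype n] (A : Matrix m n ℂ) (x y : n → ℂ) :
    star (A *ᵥ x) ⬝ᵥ (A *ᵥ y) = star x ⬝ᵥ ((Aᴴ * A) *ᵥ y) := by
  rw [star_mulVec, dotProduct_mulVec, vecMul_vecMul, ← dotProduct_mulVec]

theorem aux_contr {m n : Type*} [Fintype m] [Fintype n] [DecidableEq m] (X : Matrix m n ℂ)
    (h : ∀ v : m → ℂ, ‖WithLp.toLp 2 (Xᴴ *ᵥ v)‖ ≤ ‖WithLp.toLp 2 v‖) : Contr X := by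
  unfold Contr
  rw [posSemidef_iff_dotProduct_mulVec]
  refine ⟨?_, ?_⟩
  · unfold Matrix.IsHermitian
    rw [conjTranspose_sub, conjTranspose_one, conjTranspose_mul, conjTranspose_conjTranspose]
  · intro v
    have h1 := aux_star_mulVec Xᴴ v v
    rw [conjTranspose_conjTranspose] at h1
    rw [sub_mulVec, one_mulVec, dotProduct_sub, ← h1, ← aux_nsq, ← aux_nsq, ← Complex.ofReal_sub]
    rw [Complex.zero_le_real]
    have := h v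
    have h0 := norm_nonneg (WithLp.toLp 2 (Xᴴ *ᵥ v))
    nlinarith

theorem aux_iso {m n : Type*} [Fintype m] [Fintype n] [DecidableEq m] (F : Matrix m n ℂ)
    (hF : F * Fᴴ = 1) (v : m → ℂ) : ‖WithLp.toLp 2 (Fᴴ *ᵥ v)‖ = ‖WithLp.toLp 2 v‖ := by
  have h1 := aux_star_mulVec Fᴴ v v
  rw [conjTranspose_conjTranspose, hF, one_mulVec, ← aux_nsq, ← aux_nsq] at h1
  have h2 : ‖WithLp.toLp 2 (Fᴴ *ᵥ v)‖ ^ 2 = ‖WithLp.toLp 2 v‖ ^ 2 := by exact_mod_cast h1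
  exact (pow_left_inj₀ (norm_nonneg _) (norm_nonneg _) two_ne_zero).1 h2

theorem aux_coiso {m n : Type*} [Fintype m] [Fintype n] [DecidableEq m] (G : Matrix m n ℂ)
    (hG : G * Gᴴ = 1) (w : n → ℂ) : ‖WithLp.toLp 2 (G *ᵥ w)‖ ≤ ‖WithLp.toLp 2 w‖ := by
  -- ‖G w‖² = ⟨G w, G w⟩ = ⟨Gᴴ (G w), w⟩
  have h1 : ((‖WithLp.toLp 2 (G *ᵥ w)‖ ^ 2 : ℝ) : ℂ) = star (Gᴴ *ᵥ (G *ᵥ w)) ⬝ᵥ w := by
    rw [aux_nsq]
    conv_lhs => rw [star_mulVec, dotProduct_mulVec]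
    conv_rhs => rw [star_mulVec, star_mulVec, conjTranspose_conjTranspose]
  have h2 : star (Gᴴ *ᵥ (G *ᵥ w)) ⬝ᵥ w =
      inner ℂ (WithLp.toLp 2 (Gᴴ *ᵥ (G *ᵥ w))) (WithLp.toLp 2 w) := by
    rw [EuclideanSpace.inner_eq_star_dotProduct, dotProduct_comm]
  have h3 := norm_inner_le_norm (𝕜 := ℂ) (WithLp.toLp 2 (Gᴴ *ᵥ (G *ᵥ w))) (WithLp.toLp 2 w)
  rw [← h2, ← h1, aux_iso G hG, Complex.norm_real, Real.norm_of_nonneg (by positivity)] at h3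
  by_cases h0 : ‖WithLp.toLp 2 (G *ᵥ w)‖ = 0
  · rw [h0]; exact norm_nonneg _
  · have hp : 0 < ‖WithLp.toLp 2 (G *ᵥ w)‖ := lt_of_le_of_ne (norm_nonneg _) (Ne.symm h0)
    rw [pow_two] at h3
    exact le_of_mul_le_mul_left h3 hp

theorem aux_half {K m₁ m₂ : Type} {c : K → Type} [Fintype K] [Fintype m₁] [Fintype m₂]
    [∀ k, Fintype (c k)] [DecidableEq m₁] [DecidableEq m₂]
    (F : ∀ k, Matrix m₁ (c k) ℂ) (G : ∀ k, Matrix m₂ (c k) ℂ)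
    (hF : ∀ k, F k * (F k)ᴴ = 1) (hG : ∀ k, G k * (G k)ᴴ = 1)
    (w : K → ℝ) (hw : ∀ k, 0 ≤ w k) (hs : ∑ k, w k ≤ 1) (v : m₁ → ℂ) :
    ‖WithLp.toLp 2 ((∑ k, (w k : ℂ) • (G k * (F k)ᴴ)) *ᵥ v)‖ ≤ ‖WithLp.toLp 2 v‖ := by
  rw [Matrix.sum_mulVec, WithLp.toLp_sum]
  refine (norm_sum_le _ _).trans ?_
  have h1 : ∀ k ∈ Finset.univ, ‖WithLp.toLp 2 (((w k : ℂ) • (G k * (F k)ᴴ)) *ᵥ v)‖ ≤
      w k * ‖WithLp.toLp 2 v‖ := by
    intro k _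
    rw [smul_mulVec, WithLp.toLp_smul, norm_smul, Complex.norm_real, Real.norm_of_nonneg (hw k)]
    apply mul_le_mul_of_nonneg_left _ (hw k)
    rw [← mulVec_mulVec]
    exact (aux_coiso (G k) (hG k) _).trans (aux_iso (F k) (hF k) v).le
  refine (Finset.sum_le_sum h1).trans ?_
  rw [← Finset.sum_mul]
  exact mul_le_of_le_one_left (norm_nonneg _) hs

theorem aux_conj {K m₁ m₂ : Type} {c : K → Type} [Fintype K] [Fintype m₁] [Fintype m₂]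
    [∀ k, Fintype (c k)]
    (F : ∀ k, Matrix m₁ (c k) ℂ) (G : ∀ k, Matrix m₂ (c k) ℂ) (w : K → ℝ) :
    (∑ k, (w k : ℂ) • (F k * (G k)ᴴ))ᴴ = ∑ k, (w k : ℂ) • (G k * (F k)ᴴ) := by
  rw [conjTranspose_sum]
  apply Finset.sum_congr rfl
  intro k _
  rw [conjTranspose_smul, conjTranspose_mul, conjTranspose_conjTranspose]
  congr 1
  exact Complex.conj_ofReal _

/-- A sub-convex combination of products `F k * (G k)ᴴ` of coisometries is a contraction, on both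
sides. -/
theorem avg_contr {K m₁ m₂ : Type} {c : K → Type} [Fintype K] [Fintype m₁] [Fintype m₂]
    [∀ k, Fintype (c k)] [DecidableEq m₁] [DecidableEq m₂]
    (F : ∀ k, Matrix m₁ (c k) ℂ) (G : ∀ k, Matrix m₂ (c k) ℂ)
    (hF : ∀ k, F k * (F k)ᴴ = 1) (hG : ∀ k, G k * (G k)ᴴ = 1)
    (w : K → ℝ) (hw : ∀ k, 0 ≤ w k) (hs : ∑ k, w k ≤ 1) :
    Contr (∑ k, (w k : ℂ) • (F k * (G k)ᴴ)) ∧ Contr ((∑ k, (w k : ℂ) • (F k * (G k)ᴴ))ᴴ) := by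
  constructor
  · apply aux_contr
    intro v
    rw [aux_conj]
    exact aux_half F G hF hG w hw hs v
  · apply aux_contr
    intro v
    rw [conjTranspose_conjTranspose]
    exact aux_half G F hG hF w hw hs v

end Pool.Agent.Helper983.SN
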