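import Pool.Agent.Helper983.SN.Defs

set_option autoImplicit false

namespace Pool.Agent.Helper983.SN

open Matrix
open scoped ComplexOrder



/-- A contraction times a coisometry is a contraction. -/
theorem contr_mul {m₁ m₂ c : Type} [Fintype m₁] [Fintype m₂] [Fintype c] [DecidableEq m₁]
    [DecidableEq m₂] (M : Matrix m₁ m₂ ℂ) (G : Matrix m₂ c ℂ) (hM : Contr M) (hG : G * Gᴴ = 1) :
    Contr (M * G) := by
  unfold Contr at hM ⊢
  have h : M * G * (M * G)ᴴ = M * Mᴴ := by
    rw [Matrix.conjTranspose_mul, Matrix.mul_assoc, ← Matrix.mul_assoc G, hG, Matrix.one_mul]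
  rw [h]
  exact hM

end Pool.Agent.Helper983.SN
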