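import Pool.Agent.Helper983.SN.Defs
import Pool.Agent.Helper983.SN.P_avg_contr
import Pool.Agent.Helper983.SN.P_contr_mul

set_option autoImplicit false

namespace Pool.Agent.Helper983.SN

open Matrix
open scoped ComplexOrder



/-- The main trick: replace the blocks with a negative coefficient so that the off-diagonal entry
cancels. -/
theorem choice {K m₁ m₂ : Type} {c : K → Type} [Fintype K] [Fintype m₁] [Fintype m₂]
    [∀ k, Fintype (c k)] [DecidableEq m₁] [DecidableEq m₂]
    (F : ∀ k, Matrix m₁ (c k) ℂ) (G : ∀ k, Matrix m₂ (c k) ℂ)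
    (hF : ∀ k, F k * (F k)ᴴ = 1) (hG : ∀ k, G k * (G k)ᴴ = 1)
    (d₁ d₂ : K → ℝ) (h12 : ∑ k, d₁ k * d₂ k = 0) :
    ∃ (Y : ∀ k, Matrix m₁ (c k) ℂ) (Z : ∀ k, Matrix m₂ (c k) ℂ),
      (∀ k, Contr (Y k)) ∧ (∀ k, Contr (Z k)) ∧
      (∀ k, Y k = F k ∨ d₁ k < 0) ∧ (∀ k, Z k = G k ∨ d₂ k < 0) ∧
      ∑ k, ((d₁ k * d₂ k : ℝ) : ℂ) • (Y k * (Z k)ᴴ) = 0 := by
  classical
  set p : K → ℝ := fun k => d₁ k * d₂ k with hp
  set σ : ℝ := ∑ k, (if 0 ≤ p k then p k else 0) with hσ
  set w : K → ℝ := fun k => if 0 ≤ p k then p k / σ else 0 with hw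
  have hσ0 : 0 ≤ σ := Finset.sum_nonneg fun k _ => by
    by_cases h : 0 ≤ p k
    · rw [if_pos h]; exact h
    · rw [if_neg h]
  have hw0 : ∀ k, 0 ≤ w k := by
    intro k
    simp only [hw]
    by_cases h : 0 ≤ p k
    · rw [if_pos h]; exact div_nonneg h hσ0
    · rw [if_neg h]
  have hws : ∑ k, w k ≤ 1 := by
    have : ∑ k, w k = σ / σ := by
      rw [hσ, Finset.sum_div]
      apply Finset.sum_congr rfl
      intro k _
      simp only [hw]
      by_cases h : 0 ≤ p k
      · rw [if_pos h, if_pos h]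
      · rw [if_neg h, if_neg h, zero_div]
    rw [this]
    exact div_self_le_one σ
  set M : Matrix m₁ m₂ ℂ := ∑ k, (w k : ℂ) • (F k * (G k)ᴴ) with hM
  obtain ⟨hM1, hM2⟩ := avg_contr F G hF hG w hw0 hws
  rw [← hM] at hM1 hM2
  have hFc : ∀ k, Contr (F k) := by
    intro k
    unfold Contr
    rw [hF k, sub_self]
    exact Matrix.PosSemidef.zero
  have hGc : ∀ k, Contr (G k) := by
    intro k
    unfold Contr
    rw [hG k, sub_self]
    exact Matrix.PosSemidef.zero
  refine ⟨fun k => if d₁ k < 0 ∧ 0 < d₂ k then M * G k else F k,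
    fun k => if d₂ k < 0 ∧ 0 < d₁ k then Mᴴ * F k else G k, ?_, ?_, ?_, ?_, ?_⟩
  · intro k
    by_cases h : d₁ k < 0 ∧ 0 < d₂ k
    · simp only [if_pos h]
      exact contr_mul M (G k) hM1 (hG k)
    · simp only [if_neg h]
      exact hFc k
  · intro k
    by_cases h : d₂ k < 0 ∧ 0 < d₁ k
    · simp only [if_pos h]
      exact contr_mul Mᴴ (F k) hM2 (hF k)
    · simp only [if_neg h]
      exact hGc k
  · intro k
    by_cases h : d₁ k < 0 ∧ 0 < d₂ k
    · exact Or.inr h.1
    · exact Or.inl (if_neg h)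
  · intro k
    by_cases h : d₂ k < 0 ∧ 0 < d₁ k
    · exact Or.inr h.1
    · exact Or.inl (if_neg h)
  · have hterm : ∀ k, ((d₁ k * d₂ k : ℝ) : ℂ) •
        ((if d₁ k < 0 ∧ 0 < d₂ k then M * G k else F k) *
          (if d₂ k < 0 ∧ 0 < d₁ k then Mᴴ * F k else G k)ᴴ) =
        (σ : ℂ) • ((w k : ℂ) • (F k * (G k)ᴴ)) +
          (((if 0 ≤ p k then 0 else p k : ℝ)) : ℂ) • M := by
      intro k
      have hpk : d₁ k * d₂ k = p k := rfl
      by_cases h : 0 ≤ p k
      · have h1 : ¬ (d₁ k < 0 ∧ 0 < d₂ k) := by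
          rintro ⟨ha, hb⟩
          have : p k < 0 := mul_neg_of_neg_of_pos ha hb
          linarith
        have h2 : ¬ (d₂ k < 0 ∧ 0 < d₁ k) := by
          rintro ⟨ha, hb⟩
          have : p k < 0 := mul_neg_of_pos_of_neg hb ha
          linarith
        rw [if_neg h1, if_neg h2, if_pos h, Complex.ofReal_zero, zero_smul, add_zero, smul_smul,
          ← Complex.ofReal_mul]
        congr 2
        simp only [hw]
        rw [if_pos h]
        by_cases hs : σ = 0
        · have hz : ∀ j ∈ Finset.univ, (if 0 ≤ p j then p j else 0) = 0 := by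
            rw [← Finset.sum_eq_zero_iff_of_nonneg]
            · exact hs
            · intro j _
              by_cases h' : 0 ≤ p j
              · rw [if_pos h']; exact h'
              · rw [if_neg h']
          have := hz k (Finset.mem_univ k)
          rw [if_pos h] at this
          rw [hpk, this, hs]
          simp
        · rw [hpk]
          field_simp
      · have hneg : p k < 0 := not_le.1 h
        have hw' : w k = 0 := by simp only [hw]; rw [if_neg h]
        rw [if_neg h, hw', Complex.ofReal_zero, zero_smul, smul_zero, zero_add, hpk]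
        congr 1
        by_cases ha : d₁ k < 0
        · have hb : 0 < d₂ k := by
            by_contra hb
            have : 0 ≤ p k := mul_nonneg_of_nonpos_of_nonpos ha.le (not_lt.1 hb)
            exact h this
          rw [if_pos ⟨ha, hb⟩, if_neg (fun h' => absurd h'.1 (not_lt.2 hb.le)), Matrix.mul_assoc,
            hG k, Matrix.mul_one]
        · have ha' : 0 < d₁ k := by
            rcases lt_or_eq_of_le (not_lt.1 ha) with h' | h'
            · exact h'
            · exfalso
              apply h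
              rw [← hpk, ← h', zero_mul]
          have hb : d₂ k < 0 := by
            by_contra hb
            exact h (mul_nonneg ha'.le (not_lt.1 hb))
          rw [if_neg (fun h' => ha h'.1), if_pos ⟨hb, ha'⟩, conjTranspose_mul,
            conjTranspose_conjTranspose, ← Matrix.mul_assoc, hF k, Matrix.one_mul]
    rw [Finset.sum_congr rfl fun k _ => hterm k, Finset.sum_add_distrib, ← Finset.smul_sum,
      ← Finset.sum_smul, ← hM, ← add_smul]
    have hz : (σ : ℂ) + ∑ k, ((if 0 ≤ p k then 0 else p k : ℝ) : ℂ) = 0 := by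
      rw [← Complex.ofReal_sum, ← Complex.ofReal_add, hσ, ← Finset.sum_add_distrib]
      have : ∑ k, ((if 0 ≤ p k then p k else 0) + (if 0 ≤ p k then 0 else p k)) = ∑ k, p k := by
        apply Finset.sum_congr rfl
        intro k _
        by_cases h : 0 ≤ p k
        · rw [if_pos h, if_pos h, add_zero]
        · rw [if_neg h, if_neg h, zero_add]
      rw [this, h12, Complex.ofReal_zero]
    rw [hz, zero_smul]

end Pool.Agent.Helper983.SN
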