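import Pool.Agent.Helper983.SN.Defs

set_option autoImplicit false

namespace Pool.Agent.Helper983.SN

open Matrix
open scoped ComplexOrder



/-- Selecting columns keeps a contraction a contraction. -/
theorem contr_cols {m n c : Type} [Fintype m] [Fintype n] [Fintype c] [DecidableEq m]
    (X : Matrix m c ℂ) (hX : Contr X) (f : n → c) (hf : Function.Injective f) :
    Contr (X.submatrix id f) := by
  classical
  unfold Contr at *
  set Y : Matrix m c ℂ := Matrix.of fun i j => if j ∈ Finset.univ.image f then 0 else X i j with hY
  have h1 : 1 - X.submatrix id f * (X.submatrix id f)ᴴ = (1 - X * Xᴴ) + Y * Yᴴ := by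
    have h2 : X * Xᴴ = X.submatrix id f * (X.submatrix id f)ᴴ + Y * Yᴴ := by
      ext i j
      rw [Matrix.add_apply, Matrix.mul_apply, Matrix.mul_apply, Matrix.mul_apply]
      have h3 : ∑ a : n, X.submatrix id f i a * (X.submatrix id f)ᴴ a j =
          ∑ x ∈ Finset.univ.image f, X i x * Xᴴ x j := by
        rw [Finset.sum_image (fun a _ b _ h => hf h)]
        rfl
      have h4 : ∑ x : c, Y i x * Yᴴ x j =
          ∑ x ∈ (Finset.univ.image f)ᶜ, X i x * Xᴴ x j := by
        rw [← Finset.sum_subset (Finset.subset_univ (Finset.univ.image f)ᶜ)]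
        · refine Finset.sum_congr rfl fun x hx => ?_
          rw [Finset.mem_compl] at hx
          simp only [hY, Matrix.of_apply, Matrix.conjTranspose_apply, if_neg hx]
        · intro x _ hx
          rw [Finset.mem_compl, not_not] at hx
          simp only [hY, Matrix.of_apply, if_pos hx, zero_mul]
      rw [h3, h4, Finset.sum_add_sum_compl]
    rw [h2]
    abel
  rw [h1]
  exact hX.add (Matrix.posSemidef_self_mul_conjTranspose Y)

end Pool.Agent.Helper983.SN
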