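import Pool.Agent.Helper983.SN.Defs

set_option autoImplicit false

namespace Pool.Agent.Helper983.SN

open Matrix
open scoped ComplexOrder



theorem dual_diag {m n : Type} [Fintype m] [Fintype n] [DecidableEq m] [DecidableEq n]
    (B : Matrix m n ℂ) (j : n) : (Bᴴ * B) j j = ((∑ i, ‖B i j‖ ^ 2 : ℝ) : ℂ) := by
  rw [Matrix.mul_apply]
  push_cast
  refine Finset.sum_congr rfl fun i _ => ?_
  rw [Matrix.conjTranspose_apply]
  show (starRingEnd ℂ) (B i j) * B i j = _
  rw [Complex.conj_mul']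

theorem dual_contr {m n : Type} [Fintype m] [Fintype n] [DecidableEq m] [DecidableEq n]
    (X : Matrix m n ℂ) (hX : Contr X) : (1 - Xᴴ * X).PosSemidef := by
  have h1 : (Xᴴ * (1 - X * Xᴴ) * X).PosSemidef := hX.conjTranspose_mul_mul_same X
  have h2 : ((1 - Xᴴ * X)ᴴ * (1 - Xᴴ * X)).PosSemidef := posSemidef_conjTranspose_mul_self _
  have h3 := h1.add h2
  have h4 : Xᴴ * (1 - X * Xᴴ) * X + (1 - Xᴴ * X)ᴴ * (1 - Xᴴ * X) = 1 - Xᴴ * X := by
    rw [Matrix.conjTranspose_sub, Matrix.conjTranspose_one, Matrix.conjTranspose_mul,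
      Matrix.conjTranspose_conjTranspose]
    simp only [Matrix.mul_sub, Matrix.sub_mul, Matrix.mul_one, Matrix.one_mul, Matrix.mul_assoc]
    abel
  rwa [h4] at h3

/-- Duality: contractions pair below the trace norm. -/
theorem dual {m n : Type} [Fintype m] [Fintype n] [DecidableEq m] [DecidableEq n]
    (X A : Matrix m n ℂ) (hX : Contr X) : ((Xᴴ * A).trace).re ≤ tn A := by
  set hH := Matrix.isHermitian_conjTranspose_mul_self A with hHdef
  set V : Matrix n n ℂ := (hH.eigenvectorUnitary : Matrix n n ℂ) with hV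
  have hVV : V * Vᴴ = 1 := Unitary.coe_mul_star_self hH.eigenvectorUnitary
  have hVV' : Vᴴ * V = 1 := Unitary.coe_star_mul_self hH.eigenvectorUnitary
  have hD : Vᴴ * (Aᴴ * A) * V = diagonal (fun j => ((hH.eigenvalues j : ℝ) : ℂ)) := by
    have h := hH.conjStarAlgAut_star_eigenvectorUnitary
    rw [Unitary.conjStarAlgAut_star_apply] at h
    exact h
  have hB : ∀ j, ∑ i, ‖(A * V) i j‖ ^ 2 = hH.eigenvalues j := by
    intro j
    have h1 := dual_diag (A * V) j
    have h2 : (A * V)ᴴ * (A * V) = Vᴴ * (Aᴴ * A) * V := by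
      rw [Matrix.conjTranspose_mul]
      simp only [Matrix.mul_assoc]
    rw [h2, hD, Matrix.diagonal_apply_eq] at h1
    exact_mod_cast h1.symm
  have hP : ∀ j, ∑ i, ‖(X * V) i j‖ ^ 2 ≤ 1 := by
    intro j
    have h1 := (dual_contr X hX).conjTranspose_mul_mul_same V
    have h2 : Vᴴ * (1 - Xᴴ * X) * V = 1 - (X * V)ᴴ * (X * V) := by
      rw [Matrix.conjTranspose_mul, Matrix.mul_sub, Matrix.sub_mul, Matrix.mul_one, hVV']
      simp only [Matrix.mul_assoc]
    rw [h2] at h1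
    have h3 := h1.diag_nonneg (i := j)
    rw [Matrix.sub_apply, Matrix.one_apply_eq, dual_diag] at h3
    have h4 : (0 : ℂ) ≤ ((1 - ∑ i, ‖(X * V) i j‖ ^ 2 : ℝ) : ℂ) := by
      push_cast at h3 ⊢
      exact h3
    have h5 := Complex.zero_le_real.1 h4
    linarith
  have htr : (Xᴴ * A).trace = ∑ j, ∑ i, (starRingEnd ℂ) ((X * V) i j) * (A * V) i j := by
    have h1 : (Xᴴ * A).trace = ((X * V)ᴴ * (A * V)).trace := by
      have h2 : (X * V)ᴴ * (A * V) = Vᴴ * (Xᴴ * A * V) := by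
        rw [Matrix.conjTranspose_mul]
        simp only [Matrix.mul_assoc]
      rw [h2, Matrix.trace_mul_comm Vᴴ, Matrix.mul_assoc (Xᴴ * A), hVV, Matrix.mul_one]
    rw [h1]
    unfold Matrix.trace
    refine Finset.sum_congr rfl fun j _ => ?_
    rw [Matrix.diag_apply, Matrix.mul_apply]
    rfl
  rw [htr, Complex.re_sum]
  unfold tn
  refine Finset.sum_le_sum fun j _ => ?_
  calc (∑ i, (starRingEnd ℂ) ((X * V) i j) * (A * V) i j).re
      ≤ ‖∑ i, (starRingEnd ℂ) ((X * V) i j) * (A * V) i j‖ := Complex.re_le_norm _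
    _ ≤ ∑ i, ‖(starRingEnd ℂ) ((X * V) i j) * (A * V) i j‖ := norm_sum_le _ _
    _ = ∑ i, ‖(X * V) i j‖ * ‖(A * V) i j‖ := by
        refine Finset.sum_congr rfl fun i _ => ?_
        rw [norm_mul, RCLike.norm_conj]
    _ ≤ √(∑ i, ‖(X * V) i j‖ ^ 2) * √(∑ i, ‖(A * V) i j‖ ^ 2) :=
        Real.sum_mul_le_sqrt_mul_sqrt _ _ _
    _ ≤ 1 * √(hH.eigenvalues j) := by
        rw [hB j]
        refine mul_le_mul_of_nonneg_right ?_ (Real.sqrt_nonneg _)
        rw [Real.sqrt_le_one]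
        exact hP j
    _ = √(hH.eigenvalues j) := one_mul _

end Pool.Agent.Helper983.SN
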