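import Pool.Agent.Helper983.SN.Defs

set_option autoImplicit false

namespace Pool.Agent.Helper983.SN

open Matrix
open scoped ComplexOrder



/-- Polar decomposition (partial isometry form), pairing gives the trace norm. -/
theorem polar {m n : Type} [Fintype m] [Fintype n] [DecidableEq m] [DecidableEq n]
    (A : Matrix m n ℂ) :
    ∃ U : Matrix m n ℂ, (U * Uᴴ) * (U * Uᴴ) = U * Uᴴ ∧ (Uᴴ * A).trace = ((tn A : ℝ) : ℂ) := by
  classical
  set hA := Matrix.isHermitian_conjTranspose_mul_self A with hAdef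
  set lam : n → ℝ := hA.eigenvalues with hlam
  set V : Matrix n n ℂ := (hA.eigenvectorUnitary : Matrix n n ℂ) with hV
  have hVV : Vᴴ * V = 1 := by
    have := Unitary.coe_star_mul_self hA.eigenvectorUnitary
    simpa [Matrix.star_eq_conjTranspose] using this
  have hlam0 : ∀ j, 0 ≤ lam j := fun j => Matrix.eigenvalues_conjTranspose_mul_self_nonneg A j
  let g : n → ℝ := fun j => if lam j = 0 then 0 else 1 / Real.sqrt (lam j)
  let D : Matrix n n ℂ := Matrix.diagonal (fun j => ((g j : ℝ) : ℂ))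
  let L : Matrix n n ℂ := Matrix.diagonal (fun j => ((lam j : ℝ) : ℂ))
  let E : Matrix n n ℂ := Matrix.diagonal (fun j => ((if lam j = 0 then 0 else 1 : ℝ) : ℂ))
  have hspec : Aᴴ * A = V * L * Vᴴ := by
    have := hA.spectral_theorem
    rw [Unitary.conjStarAlgAut_apply] at this
    exact this
  have hDh : Dᴴ = D := by
    simp only [D, Matrix.diagonal_conjTranspose]
    congr 1
    funext j
    simp
  have hgl : ∀ j, g j * lam j = Real.sqrt (lam j) := by
    intro j
    by_cases h : lam j = 0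
    · simp [g, h]
    · have hpos : 0 < lam j := lt_of_le_of_ne (hlam0 j) (Ne.symm h)
      have hs : 0 < Real.sqrt (lam j) := Real.sqrt_pos.2 hpos
      simp only [g, h, if_false]
      rw [div_mul_eq_mul_div, one_mul, div_eq_iff hs.ne', Real.mul_self_sqrt hpos.le]
  have hglg : ∀ j, g j * lam j * g j = if lam j = 0 then 0 else 1 := by
    intro j
    rw [hgl]
    by_cases h : lam j = 0
    · simp [g, h]
    · have hpos : 0 < lam j := lt_of_le_of_ne (hlam0 j) (Ne.symm h)
      have hs : 0 < Real.sqrt (lam j) := Real.sqrt_pos.2 hpos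
      simp only [g, h, if_false]
      exact mul_one_div_cancel hs.ne'
  have hDLD : D * L * D = E := by
    simp only [D, L, E, Matrix.diagonal_mul_diagonal]
    congr 1
    funext j
    rw [← hglg j]
    push_cast
    ring
  have hDE : D * E = D := by
    simp only [D, E, Matrix.diagonal_mul_diagonal]
    congr 1
    funext j
    by_cases h : lam j = 0
    · simp [g, h]
    · simp [h]
  refine ⟨A * V * D * Vᴴ, ?_, ?_⟩
  · set U : Matrix m n ℂ := A * V * D * Vᴴ with hU
    have hUh : Uᴴ = V * D * Vᴴ * Aᴴ := by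
      rw [hU]
      simp only [Matrix.conjTranspose_mul, Matrix.conjTranspose_conjTranspose, hDh,
        Matrix.mul_assoc]
    have hP : Uᴴ * U = V * E * Vᴴ := by
      rw [hUh, hU]
      calc V * D * Vᴴ * Aᴴ * (A * V * D * Vᴴ)
          = V * D * Vᴴ * (Aᴴ * A) * V * D * Vᴴ := by simp only [Matrix.mul_assoc]
        _ = V * D * Vᴴ * (V * L * Vᴴ) * V * D * Vᴴ := by rw [hspec]
        _ = V * D * (Vᴴ * V) * L * (Vᴴ * V) * D * Vᴴ := by simp only [Matrix.mul_assoc]
        _ = V * (D * L * D) * Vᴴ := by rw [hVV]; simp only [Matrix.mul_assoc, Matrix.one_mul]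
        _ = V * E * Vᴴ := by rw [hDLD]
    have hUP : U * (Uᴴ * U) = U := by
      rw [hP, hU]
      calc A * V * D * Vᴴ * (V * E * Vᴴ)
          = A * V * D * (Vᴴ * V) * E * Vᴴ := by simp only [Matrix.mul_assoc]
        _ = A * V * (D * E) * Vᴴ := by rw [hVV]; simp only [Matrix.mul_assoc, Matrix.one_mul]
        _ = A * V * D * Vᴴ := by rw [hDE]
    calc U * Uᴴ * (U * Uᴴ) = U * (Uᴴ * U) * Uᴴ := by simp only [Matrix.mul_assoc]
      _ = U * Uᴴ := by rw [hUP]
  · have hUh : (A * V * D * Vᴴ)ᴴ = V * D * Vᴴ * Aᴴ := by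
      simp only [Matrix.conjTranspose_mul, Matrix.conjTranspose_conjTranspose, hDh,
        Matrix.mul_assoc]
    rw [hUh]
    have h1 : V * D * Vᴴ * Aᴴ * A = V * (D * L) * Vᴴ := by
      calc V * D * Vᴴ * Aᴴ * A = V * D * Vᴴ * (Aᴴ * A) := by simp only [Matrix.mul_assoc]
        _ = V * D * Vᴴ * (V * L * Vᴴ) := by rw [hspec]
        _ = V * D * (Vᴴ * V) * L * Vᴴ := by simp only [Matrix.mul_assoc]
        _ = V * (D * L) * Vᴴ := by rw [hVV]; simp only [Matrix.mul_assoc, Matrix.one_mul]
    rw [h1, Matrix.trace_mul_comm, ← Matrix.mul_assoc, hVV, Matrix.one_mul]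
    simp only [D, L, Matrix.diagonal_mul_diagonal, Matrix.trace_diagonal]
    unfold tn
    push_cast
    refine Finset.sum_congr rfl fun j _ => ?_
    rw [← hgl j]
    push_cast
    rfl

end Pool.Agent.Helper983.SN
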