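import Pool.Agent.Helper983.SN.Defs
import Pool.Agent.Helper983.SN.P_polar

set_option autoImplicit false

namespace Pool.Agent.Helper983.SN

open Matrix
open scoped ComplexOrder



theorem ext_aux {m k n : Type} [Fintype m] [Fintype k] [Fintype n] [DecidableEq m]
    [DecidableEq k] [DecidableEq n] (U : Matrix m n ℂ)
    (h : (U * Uᴴ) * (U * Uᴴ) = U * Uᴴ) :
    (Matrix.fromCols U (Matrix.fromCols (1 - U * Uᴴ) (0 : Matrix m k ℂ))) *
      (Matrix.fromCols U (Matrix.fromCols (1 - U * Uᴴ) (0 : Matrix m k ℂ)))ᴴ = 1 := by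
  rw [Matrix.conjTranspose_fromCols_eq_fromRows_conjTranspose,
    Matrix.conjTranspose_fromCols_eq_fromRows_conjTranspose,
    Matrix.fromCols_mul_fromRows, Matrix.fromCols_mul_fromRows]
  simp only [Matrix.conjTranspose_sub, Matrix.conjTranspose_one, Matrix.conjTranspose_mul,
    Matrix.conjTranspose_conjTranspose, Matrix.conjTranspose_zero, Matrix.mul_zero, add_zero]
  rw [Matrix.mul_sub, Matrix.sub_mul (1 : Matrix m m ℂ) (U * Uᴴ) (U * Uᴴ), Matrix.mul_one, Matrix.one_mul, h]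
  simp

theorem ext_aux2 {m k n : Type} [Fintype m] [Fintype k] [Fintype n] [DecidableEq m]
    [DecidableEq k] [DecidableEq n] (U : Matrix m n ℂ)
    (h : (U * Uᴴ) * (U * Uᴴ) = U * Uᴴ) :
    (Matrix.fromCols U (Matrix.fromCols (0 : Matrix m k ℂ) (1 - U * Uᴴ))) *
      (Matrix.fromCols U (Matrix.fromCols (0 : Matrix m k ℂ) (1 - U * Uᴴ)))ᴴ = 1 := by
  rw [Matrix.conjTranspose_fromCols_eq_fromRows_conjTranspose,
    Matrix.conjTranspose_fromCols_eq_fromRows_conjTranspose,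
    Matrix.fromCols_mul_fromRows, Matrix.fromCols_mul_fromRows]
  simp only [Matrix.conjTranspose_sub, Matrix.conjTranspose_one, Matrix.conjTranspose_mul,
    Matrix.conjTranspose_conjTranspose, Matrix.conjTranspose_zero, Matrix.mul_zero, zero_add]
  rw [Matrix.mul_sub, Matrix.sub_mul (1 : Matrix m m ℂ) (U * Uᴴ) (U * Uᴴ), Matrix.mul_one, Matrix.one_mul, h]
  simp

/-- Coisometric extension of the polar factor: two placements of the extra columns. -/
theorem ext {m₁ m₂ n : Type} [Fintype m₁] [Fintype m₂] [Fintype n] [DecidableEq m₁]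
    [DecidableEq m₂] [DecidableEq n] (A : Matrix m₁ n ℂ) (B : Matrix m₂ n ℂ) :
    ∃ (F : Matrix m₁ (n ⊕ (m₁ ⊕ m₂)) ℂ) (G : Matrix m₂ (n ⊕ (m₁ ⊕ m₂)) ℂ),
      F * Fᴴ = 1 ∧ G * Gᴴ = 1 ∧
      (((F.submatrix id Sum.inl)ᴴ * A).trace) = ((tn A : ℝ) : ℂ) ∧
      (((G.submatrix id Sum.inl)ᴴ * B).trace) = ((tn B : ℝ) : ℂ) := by
  obtain ⟨U, hU, hUA⟩ := polar A
  obtain ⟨W, hW, hWB⟩ := polar B
  refine ⟨Matrix.fromCols U (Matrix.fromCols (1 - U * Uᴴ) 0),
    Matrix.fromCols W (Matrix.fromCols 0 (1 - W * Wᴴ)), ext_aux U hU, ext_aux2 W hW, ?_, ?_⟩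
  · have : (Matrix.fromCols U (Matrix.fromCols (1 - U * Uᴴ) (0 : Matrix m₁ m₂ ℂ))).submatrix id
        Sum.inl = U := by
      ext i j; simp
    rw [this, hUA]
  · have : (Matrix.fromCols W (Matrix.fromCols (0 : Matrix m₂ m₁ ℂ) (1 - W * Wᴴ))).submatrix id
        Sum.inl = W := by
      ext i j; simp
    rw [this, hWB]

end Pool.Agent.Helper983.SN
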