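import Pool.Agent.Helper983.SN.Defs
import Pool.Agent.Helper983.SN.P_dual
import Pool.Agent.Helper983.SN.P_contr_cols
import Pool.Agent.Helper983.SN.P_ext
import Pool.Agent.Helper983.SN.P_choice
import Pool.Agent.Helper983.SN.P_assemble

set_option autoImplicit false

namespace Pool.Agent.Helper983.SN

open Matrix
open scoped ComplexOrder



theorem main_aux_term {m n c : Type} [Fintype m] [Fintype n] [Fintype c] [DecidableEq m]
    [DecidableEq n] (Y F : Matrix m c ℂ) (f : n → c) (hf : Function.Injective f)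
    (A : Matrix m n ℂ) (hY : Contr Y) (d : ℝ) (h : Y = F ∨ d < 0)
    (hF : (((F.submatrix id f)ᴴ * A).trace) = ((tn A : ℝ) : ℂ)) :
    d * tn A ≤ d * (((Y.submatrix id f)ᴴ * A).trace).re := by
  rcases h with rfl | hd
  · rw [hF, Complex.ofReal_re]
  · have h1 := dual _ A (contr_cols Y hY f hf)
    exact mul_le_mul_of_nonpos_left h1 hd.le

/-- Main inequality for a real `2 × K` matrix with orthonormal rows. -/
theorem main {K m₁ m₂ : Type} {n : K → Type} [Fintype K] [Fintype m₁] [Fintype m₂]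
    [∀ k, Fintype (n k)] [DecidableEq K] [DecidableEq m₁] [DecidableEq m₂] [∀ k, DecidableEq (n k)]
    (T : Matrix (m₁ ⊕ m₂) (Σ k, n k) ℂ)
    (d₁ d₂ : K → ℝ) (h1 : ∑ k, d₁ k ^ 2 = 1) (h2 : ∑ k, d₂ k ^ 2 = 1)
    (h12 : ∑ k, d₁ k * d₂ k = 0) :
    ∑ k, (d₁ k * tn (topBlock T k) + d₂ k * tn (botBlock T k)) ≤ tn T := by
  classical
  choose F G hF hG hFt hGt using fun k => ext (topBlock T k) (botBlock T k)
  obtain ⟨Y, Z, hY, hZ, hYF, hZG, h0⟩ :=
    choice (c := fun k => n k ⊕ (m₁ ⊕ m₂)) F G hF hG d₁ d₂ h12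
  have hX' := assemble Y Z hY hZ d₁ d₂ h1 h2 h0
  have hinj : Function.Injective
      (fun q : Σ k, n k => (⟨q.1, Sum.inl q.2⟩ : Σ k, n k ⊕ (m₁ ⊕ m₂))) := by
    rintro ⟨k, j⟩ ⟨k', j'⟩ h
    simp only [Sigma.mk.injEq] at h
    obtain ⟨rfl, h⟩ := h
    have := Sum.inl.inj (eq_of_heq h)
    rw [this]
  have hX := contr_cols _ hX' _ hinj
  have hd := dual _ T hX
  refine le_trans ?_ hd
  have htr : (((Matrix.of fun (r : m₁ ⊕ m₂) (q : Σ k, n k ⊕ (m₁ ⊕ m₂)) =>
      Sum.elim (fun i => (d₁ q.1 : ℂ) * Y q.1 i q.2) (fun i => (d₂ q.1 : ℂ) * Z q.1 i q.2) r).submatrix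
        id (fun q : Σ k, n k => (⟨q.1, Sum.inl q.2⟩ : Σ k, n k ⊕ (m₁ ⊕ m₂))))ᴴ * T).trace
      = ∑ k, ((d₁ k : ℂ) * (((Y k).submatrix id Sum.inl)ᴴ * topBlock T k).trace
        + (d₂ k : ℂ) * (((Z k).submatrix id Sum.inl)ᴴ * botBlock T k).trace) := by
    simp only [Matrix.trace, Matrix.diag_apply, Matrix.mul_apply, Fintype.sum_sigma,
      Fintype.sum_sum_type, Finset.mul_sum, ← Finset.sum_add_distrib, Matrix.conjTranspose_apply,
      Matrix.submatrix_apply, Matrix.of_apply, topBlock, botBlock, Sum.elim_inl, Sum.elim_inr,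
      id, star_mul']
    refine Finset.sum_congr rfl fun k _ => Finset.sum_congr rfl fun j _ => ?_
    congr 1
    · refine Finset.sum_congr rfl fun i _ => ?_
      rw [Complex.star_def, Complex.conj_ofReal, mul_assoc]
    · refine Finset.sum_congr rfl fun i _ => ?_
      rw [Complex.star_def, Complex.conj_ofReal, mul_assoc]
  rw [htr, Complex.re_sum]
  refine Finset.sum_le_sum fun k _ => ?_
  rw [Complex.add_re, Complex.re_ofReal_mul, Complex.re_ofReal_mul]
  exact add_le_add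
    (main_aux_term (Y k) (F k) Sum.inl Sum.inl_injective (topBlock T k) (hY k) (d₁ k) (hYF k) (hFt k))
    (main_aux_term (Z k) (G k) Sum.inl Sum.inl_injective (botBlock T k) (hZ k) (d₂ k) (hZG k) (hGt k))

end Pool.Agent.Helper983.SN
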