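import Pool.Agent.Helper983.SN.Defs
import Pool.Agent.Helper983.SN.P_polar

set_option autoImplicit false

namespace Pool.Agent.Helper983.SN

open Matrix
open scoped ComplexOrder



theorem factor_real (M : Matrix (Fin 2) (Fin 2) ℝ) (hM : M.PosSemidef) :
    ∃ E : Matrix (Fin 2) (Fin 2) ℝ, E * Eᵀ = M := by
  open scoped MatrixOrder Matrix.Norms.L2Operator in
  obtain ⟨B, hB⟩ := CStarAlgebra.nonneg_iff_eq_star_mul_self.mp hM.nonneg
  refine ⟨Bᵀ, ?_⟩
  rw [hB, transpose_transpose, star_eq_conjTranspose, conjTranspose_eq_transpose_of_trivial]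

theorem psd_real {N : ℕ} (U : Matrix (Fin 2) (Fin N) ℂ) (hU : (U * Uᴴ) * (U * Uᴴ) = U * Uᴴ) :
    (1 - (U.map Complex.re) * (U.map Complex.re)ᵀ).PosSemidef := by
  have hH : (U * Uᴴ)ᴴ = U * Uᴴ := by
    rw [conjTranspose_mul, conjTranspose_conjTranspose]
  have hP : (1 - U * Uᴴ).PosSemidef := by
    have h1 : (1 - U * Uᴴ)ᴴ * (1 - U * Uᴴ) = 1 - U * Uᴴ := by
      rw [conjTranspose_sub, conjTranspose_one, hH, sub_mul, mul_sub, mul_sub, hU]
      simp
    have h2 := posSemidef_conjTranspose_mul_self (1 - U * Uᴴ)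
    rwa [h1] at h2
  refine PosSemidef.of_dotProduct_mulVec_nonneg ?_ ?_
  · unfold IsHermitian
    rw [conjTranspose_eq_transpose_of_trivial, transpose_sub, transpose_one, transpose_mul,
      transpose_transpose]
  · intro x
    have h1 := hP.dotProduct_mulVec_nonneg (fun i => (x i : ℂ))
    have h2 : (star (fun i => (x i : ℂ)) ⬝ᵥ ((1 - U * Uᴴ) *ᵥ (fun i => (x i : ℂ)))) =
        (((∑ i, x i ^ 2) - ∑ k, Complex.normSq ((Uᴴ *ᵥ (fun i => (x i : ℂ))) k) : ℝ) : ℂ) := by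
      rw [sub_mulVec, dotProduct_sub, one_mulVec, ← mulVec_mulVec, dotProduct_mulVec]
      have h3 : star (fun i => (x i : ℂ)) ᵥ* U = star (Uᴴ *ᵥ (fun i => (x i : ℂ))) := by
        rw [star_mulVec, conjTranspose_conjTranspose]
      rw [h3]
      simp only [dotProduct, Pi.star_apply, RCLike.star_def, Complex.normSq_eq_conj_mul_self,
        Complex.ofReal_sub, Complex.ofReal_sum, Complex.conj_ofReal, Complex.ofReal_mul, pow_two]
    rw [h2] at h1
    have h4 : 0 ≤ (∑ i, x i ^ 2) - ∑ k, Complex.normSq ((Uᴴ *ᵥ (fun i => (x i : ℂ))) k) := by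
      exact_mod_cast h1
    have h5 : star x ⬝ᵥ ((1 - U.map Complex.re * (U.map Complex.re)ᵀ) *ᵥ x) =
        (∑ i, x i ^ 2) - ∑ k, (((U.map Complex.re)ᵀ *ᵥ x) k) ^ 2 := by
      rw [sub_mulVec, dotProduct_sub, one_mulVec, ← mulVec_mulVec, dotProduct_mulVec]
      have h3 : star x ᵥ* (U.map Complex.re) = (U.map Complex.re)ᵀ *ᵥ x := by
        rw [mulVec_transpose, star_trivial]
      rw [h3]
      simp only [dotProduct, star_trivial, pow_two]
    rw [h5]
    refine h4.trans (sub_le_sub_left (Finset.sum_le_sum fun k _ => ?_) _)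
    have h6 : ((U.map Complex.re)ᵀ *ᵥ x) k = ((Uᴴ *ᵥ (fun i => (x i : ℂ))) k).re := by
      simp [mulVec, dotProduct, Complex.mul_re]
    rw [h6, Complex.normSq_apply]
    nlinarith [mul_self_nonneg ((Uᴴ *ᵥ (fun i => (x i : ℂ))) k).im]

/-- Real dual matrix of a real `2 × N` matrix, completed to orthonormal rows. -/
theorem realD (N : ℕ) (C : Matrix (Fin 2) (Fin N) ℝ) :
    ∃ (D : Matrix (Fin 2) (Fin N) ℝ) (E : Matrix (Fin 2) (Fin 2) ℝ),
      D * Dᵀ + E * Eᵀ = 1 ∧
      ∑ i, ∑ k, D i k * C i k = tn (C.map (fun x : ℝ => (x : ℂ))) := by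
  obtain ⟨U, hU, ht⟩ := polar (C.map (fun x : ℝ => (x : ℂ)))
  obtain ⟨E, hE⟩ := factor_real _ (psd_real U hU)
  refine ⟨U.map Complex.re, E, by rw [hE]; abel, ?_⟩
  have h1 := congrArg Complex.re ht
  rw [Complex.ofReal_re] at h1
  rw [← h1]
  simp only [trace, diag, mul_apply, conjTranspose_apply, map_apply, Complex.re_sum]
  rw [Finset.sum_comm]
  refine Finset.sum_congr rfl fun k _ => Finset.sum_congr rfl fun i _ => ?_
  simp [Complex.mul_re]

end Pool.Agent.Helper983.SN
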