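import Pool.Agent.Helper983.SN.Defs

set_option autoImplicit false

namespace Pool.Agent.Helper983.SN

open Matrix
open scoped ComplexOrder



/-- Adding columns indexed by empty types does not change the trace norm. -/
theorem tn_reindex {m n n' : Type} [Fintype m] [Fintype n] [Fintype n'] [DecidableEq n]
    [DecidableEq n'] [DecidableEq m] (A : Matrix m n ℂ) (e : n' ≃ n) :
    tn (A.submatrix id e) = tn A := by
  have key : ∀ {k : Type} [Fintype k] [DecidableEq k] (M : Matrix k k ℂ) (hM : M.IsHermitian),
      ∑ j, Real.sqrt (hM.eigenvalues j) =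
        (M.charpoly.roots.map (fun z : ℂ => Real.sqrt z.re)).sum := by
    intro k _ _ M hM
    rw [hM.roots_charpoly_eq_eigenvalues, Multiset.map_map]
    rfl
  unfold tn
  rw [key, key]
  have h : (A.submatrix id e)ᴴ * (A.submatrix id e) = Matrix.reindex e.symm e.symm (Aᴴ * A) := by
    ext i j
    simp [Matrix.mul_apply, Matrix.reindex_apply, Matrix.submatrix_apply]
  rw [h, Matrix.charpoly_reindex]

end Pool.Agent.Helper983.SN
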