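import Pool.Agent.Helper983.SN.Defs
import Pool.Agent.Helper983.SN.P_main
import Pool.Agent.Helper983.SN.P_realD
import Pool.Agent.Helper983.SN.P_tn_reindex

set_option autoImplicit false

namespace Pool.Agent.Helper983.SN

open Matrix
open scoped ComplexOrder



/-- extended sizes -/
def final_n {N : ℕ} (n : Fin N → ℕ) : Fin N ⊕ Fin 2 → ℕ := Sum.elim n (fun _ => 0)

instance final_empty {N : ℕ} (n : Fin N → ℕ) (k : Fin 2) : IsEmpty (Fin (final_n n (Sum.inr k))) :=
  inferInstanceAs (IsEmpty (Fin 0))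

instance final_empty2 {N : ℕ} (n : Fin N → ℕ) : IsEmpty (Σ k : Fin 2, Fin (final_n n (Sum.inr k))) :=
  ⟨fun x => (final_empty n x.1).elim x.2⟩

/-- the reindexing -/
def final_e {N : ℕ} (n : Fin N → ℕ) : (Σ k : Fin N ⊕ Fin 2, Fin (final_n n k)) ≃ Σ k : Fin N, Fin (n k) where
  toFun x := match x with
    | ⟨Sum.inl k, j⟩ => ⟨k, j⟩
    | ⟨Sum.inr k, j⟩ => (final_empty n k).elim j
  invFun x := ⟨Sum.inl x.1, x.2⟩
  left_inv := by
    rintro ⟨k | k, j⟩
    · rfl
    · exact (final_empty n k).elim j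
  right_inv := by
    rintro ⟨k, j⟩
    rfl

/-- The trace norm compression inequality for every `2 × N` block matrix. -/
theorem final (N m₁ m₂ : ℕ) (n : Fin N → ℕ)
    (T : Matrix (Fin m₁ ⊕ Fin m₂) (Σ k : Fin N, Fin (n k)) ℂ)
    (C : Matrix (Fin 2) (Fin N) ℝ)
    (ha : ∀ k, C 0 k = tn (topBlock T k)) (hb : ∀ k, C 1 k = tn (botBlock T k)) :
    tn (C.map (fun x : ℝ => (x : ℂ))) ≤ tn T := by
  
  obtain ⟨D, E, hDE, hD⟩ := realD N C
  set T' : Matrix (Fin m₁ ⊕ Fin m₂) (Σ k : Fin N ⊕ Fin 2, Fin (final_n n k)) ℂ :=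
    T.submatrix id (final_e n) with hT'
  have htop : ∀ k, topBlock T' (Sum.inl k) = topBlock T k := fun k => rfl
  have hbot : ∀ k, botBlock T' (Sum.inl k) = botBlock T k := fun k => rfl
  have htop0 : ∀ k, tn (topBlock T' (Sum.inr k)) = 0 := fun k => by
    unfold tn
    exact Fintype.sum_empty _
  have hbot0 : ∀ k, tn (botBlock T' (Sum.inr k)) = 0 := fun k => by
    unfold tn
    exact Fintype.sum_empty _
  have h00 := congrFun (congrFun hDE 0) 0
  have h11 := congrFun (congrFun hDE 1) 1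
  have h01 := congrFun (congrFun hDE 0) 1
  simp only [Matrix.add_apply, Matrix.mul_apply, Matrix.transpose_apply, Matrix.one_apply_eq] at h00 h11
  simp only [Matrix.add_apply, Matrix.mul_apply, Matrix.transpose_apply] at h01
  rw [Matrix.one_apply_ne (by decide)] at h01
  have hm := main T' (Sum.elim (D 0) (E 0)) (Sum.elim (D 1) (E 1))
    (by rw [Fintype.sum_sum_type]; simp only [Sum.elim_inl, Sum.elim_inr, pow_two]; exact h00)
    (by rw [Fintype.sum_sum_type]; simp only [Sum.elim_inl, Sum.elim_inr, pow_two]; exact h11)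
    (by rw [Fintype.sum_sum_type]; simp only [Sum.elim_inl, Sum.elim_inr]; exact h01)
  rw [Fintype.sum_sum_type] at hm
  simp only [Sum.elim_inl, Sum.elim_inr, htop0, hbot0, mul_zero, add_zero, Finset.sum_const_zero] at hm
  rw [hT', tn_reindex] at hm
  rw [← hD, Fin.sum_univ_two, ← Finset.sum_add_distrib]
  refine le_trans (le_of_eq ?_) hm
  apply Finset.sum_congr rfl
  intro k _
  rw [ha, hb]
  rfl


end Pool.Agent.Helper983.SN
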