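import Pool.Agent.Helper983.SN.Defs

set_option autoImplicit false

namespace Pool.Agent.Helper983.SN

open Matrix
open scoped ComplexOrder



theorem schatten_one {m n : Type} [Fintype m] [Fintype n] [DecidableEq n]
    (A : Matrix m n ℂ) : schatten 1 A = tn A := by
  unfold schatten tn
  rw [div_one, Real.rpow_one]
  exact Finset.sum_congr rfl fun j _ => (Real.sqrt_eq_rpow _).symm

end Pool.Agent.Helper983.SN
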